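import Mathlib
import Pool.Agent.Helper543.PlaneC
import Pool.Agent.Helper543.Upper

/-! The minimum number of circles determined by `n` points, for every `n` at least fifteen. -/

namespace Pool.Agent.Results.MP_1f1ca1_co.FromFifteen

/-- the Euclidean plane -/
abbrev Plane := EuclideanSpace ℝ (Fin 2)

/-- a circle of positive radius -/
def IsCircle (C : Set Plane) : Prop := ∃ (c : Plane) (r : ℝ), 0 < r ∧ C = Metric.sphere c r

/-- the circles determined by `P`: those through at least three points of `P` -/
def Circles (P : Set Plane) : Set (Set Plane) := {C | IsCircle C ∧ 3 ≤ (P ∩ C).ncard}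

/-- the points of `P` do not all lie on one line and do not all lie on one circle -/
def Admissible (P : Set Plane) : Prop := ¬ Collinear ℝ P ∧ ¬ ∃ C, IsCircle C ∧ P ⊆ C

/-- the numbers of circles determined by admissible sets of `n` points -/
def Counts (n : ℕ) : Set ℕ :=
  {k | ∃ P : Finset Plane, P.card = n ∧ Admissible (P : Set Plane) ∧
    (Circles (P : Set Plane)).ncard = k}

/-- Finitely many circles are determined by a finite set, and for every `n` at least fifteen the
minimum number of circles determined by an admissible set of `n` points is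
`(n - 1).choose 2 + 1 - (n - 1) / 2` (the last division rounded down). -/
theorem result : (∀ P : Finset Plane, (Circles (P : Set Plane)).Finite) ∧
    ∀ n : ℕ, 15 ≤ n → IsLeast (Counts n) ((n - 1).choose 2 + 1 - (n - 1) / 2) := by
  have hadm : ∀ P : Set Plane, Admissible P ↔ Pool.Agent.Helper543.PlaneC.Admissible P := by
    intro P
    unfold Admissible Pool.Agent.Helper543.PlaneC.Admissible
    refine and_congr Iff.rfl (not_congr ?_)
    constructor
    · rintro ⟨C, ⟨c, r, hr, rfl⟩, h⟩; exact ⟨c, r, hr, h⟩
    · rintro ⟨c, r, hr, h⟩; exact ⟨_, ⟨c, r, hr, rfl⟩, h⟩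
  refine ⟨fun P => Pool.Agent.Helper543.PlaneC.circles_finite P, fun n hn => ?_⟩
  rw [Pool.Agent.Helper543.Upper.formula n (by omega)]
  have hlow : ∀ P : Finset Plane, P.card = n → Admissible (P : Set Plane) →
      (n - 2) ^ 2 / 2 + 1 ≤ (Circles (P : Set Plane)).ncard := by
    intro P hP hA
    have h := Pool.Agent.Helper543.PlaneC.lower P (by omega) ((hadm _).1 hA)
    rw [hP] at h
    exact h
  constructor
  · obtain ⟨P, h1, h2, h3⟩ := Pool.Agent.Helper543.Upper.upper n (by omega)
    have h2' := (hadm _).2 h2
    exact ⟨P, h1, h2', le_antisymm h3 (hlow P h1 h2')⟩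
  · rintro k ⟨P, h1, h2, rfl⟩
    exact hlow P h1 h2

end Pool.Agent.Results.MP_1f1ca1_co.FromFifteen
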